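import Pool.Agent.Helper35.GR.Defs2

/-!
# Bounds for differential polynomials (P4b)
-/

set_option autoImplicit false

open scoped ContDiff Topology NNReal
open Set Filter MeasureTheory

namespace Pool.Agent.GR

open Pool.Agent.Helper25.GrimReaper

variable {n : ℕ}

theorem DP_continuous {q m : ℕ} {f : Jet n → ℝ} (hf : DP q m f) : Continuous f := by
  induction hf with
  | zero => exact continuous_const
  | base φ hφ => exact hφ.continuous.comp (continuous_pi fun i => continuous_apply _)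
  | var w hw h1 hm => exact continuous_apply w
  | add _ _ h1 h2 => exact h1.add h2
  | mul _ _ h1 h2 => exact h1.mul h2

lemma box_bdd {φ : (Fin n → ℝ) → ℝ} (hφ : Continuous φ) (M : ℝ) : ∃ C : ℝ, 0 ≤ C ∧
    ∀ p : Fin n → ℝ, (∀ i, |p i| ≤ M) → |φ p| ≤ C := by
  have hK : IsCompact (Set.pi univ fun _ : Fin n => Icc (-M) M) :=
    isCompact_univ_pi fun _ => isCompact_Icc
  obtain ⟨C, hC⟩ := hK.exists_bound_of_continuousOn hφ.continuousOn
  refine ⟨max C 0, le_max_right _ _, fun p hp => ?_⟩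
  have h1 := hC p (fun i _ => abs_le.1 (hp i))
  rw [Real.norm_eq_abs] at h1
  exact h1.trans (le_max_left _ _)

lemma box_lip {φ : (Fin n → ℝ) → ℝ} (hφ : ContDiff ℝ ∞ φ) (M : ℝ) : ∃ C : ℝ, 0 ≤ C ∧
    ∀ p p' : Fin n → ℝ, (∀ i, |p i| ≤ M) → (∀ i, |p' i| ≤ M) → |φ p - φ p'| ≤ C * ‖p - p'‖ := by
  have hK : IsCompact (Set.pi univ fun _ : Fin n => Icc (-M) M) :=
    isCompact_univ_pi fun _ => isCompact_Icc
  have hc : Continuous (fderiv ℝ φ) := hφ.continuous_fderiv (by simp)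
  obtain ⟨C, hC⟩ := hK.exists_bound_of_continuousOn hc.continuousOn
  have hconv : Convex ℝ (Set.pi univ fun _ : Fin n => Icc (-M) M) :=
    convex_pi fun _ _ => convex_Icc _ _
  refine ⟨max C 0, le_max_right _ _, fun p p' hp hp' => ?_⟩
  have h1 := hconv.norm_image_sub_le_of_norm_fderiv_le (f := φ) (C := max C 0) (x := p') (y := p)
    (fun x _ => (hφ.differentiable (by simp)) x)
    (fun x hx => (hC x hx).trans (le_max_left _ _))
    (fun i _ => abs_le.1 (hp' i)) (fun i _ => abs_le.1 (hp i))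
  rwa [Real.norm_eq_abs] at h1

lemma DP_bdd {q m : ℕ} {f : Jet n → ℝ} (hf : DP q m f) (M : ℝ) : ∃ B : ℝ, 0 ≤ B ∧
    ∀ J : Jet n, (∀ w : List (Fin n), 1 ≤ w.length → w.length ≤ m + 1 → |J w| ≤ M) →
      |f J| ≤ B := by
  induction hf with
  | zero => exact ⟨0, le_rfl, fun J _ => by simp⟩
  | base φ hφ =>
    obtain ⟨C, hC0, hC⟩ := box_bdd hφ.continuous M
    exact ⟨C, hC0, fun J hJ => hC _ fun i => hJ [i] (by simp) (by simp)⟩
  | @var m k w hw h1 hm =>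
    exact ⟨|M|, abs_nonneg _, fun J hJ => (hJ w (by omega) (by omega)).trans (le_abs_self _)⟩
  | add _ _ h1 h2 =>
    obtain ⟨B1, hB1, H1⟩ := h1
    obtain ⟨B2, hB2, H2⟩ := h2
    exact ⟨B1 + B2, by positivity, fun J hJ => (abs_add_le _ _).trans (add_le_add (H1 J hJ) (H2 J hJ))⟩
  | mul _ _ h1 h2 =>
    obtain ⟨B1, hB1, H1⟩ := h1
    obtain ⟨B2, hB2, H2⟩ := h2
    refine ⟨B1 * B2, by positivity, fun J hJ => ?_⟩
    rw [abs_mul]
    exact mul_le_mul (H1 J hJ) (H2 J hJ) (abs_nonneg _) hB1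

theorem DP_lipschitz {q m : ℕ} {f : Jet n → ℝ} (hf : DP q m f) (M : ℝ) :
    ∃ C : ℝ, 0 ≤ C ∧ ∀ J J' : Jet n, ∀ δ : ℝ,
      (∀ w : List (Fin n), 1 ≤ w.length → w.length ≤ m + 1 → |J w| ≤ M ∧ |J' w| ≤ M) →
      (∀ w : List (Fin n), 1 ≤ w.length → w.length ≤ m + 1 → |J w - J' w| ≤ δ) → 0 ≤ δ →
      |f J - f J'| ≤ C * δ := by
  induction hf with
  | zero => exact ⟨0, le_rfl, fun J J' δ _ _ _ => by simp⟩
  | base φ hφ =>
    obtain ⟨C, hC0, hC⟩ := box_lip hφ M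
    refine ⟨C, hC0, fun J J' δ hJ hd hδ => ?_⟩
    refine (hC _ _ (fun i => (hJ [i] (by simp) (by simp)).1)
      (fun i => (hJ [i] (by simp) (by simp)).2)).trans ?_
    apply mul_le_mul_of_nonneg_left _ hC0
    rw [pi_norm_le_iff_of_nonneg hδ]
    intro i
    rw [Real.norm_eq_abs]
    exact hd [i] (by simp) (by simp)
  | @var m k w hw h1 hm =>
    refine ⟨1, zero_le_one, fun J J' δ hJ hd hδ => ?_⟩
    rw [one_mul]
    exact hd w (by omega) (by omega)
  | add _ _ h1 h2 =>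
    obtain ⟨B1, hB1, H1⟩ := h1
    obtain ⟨B2, hB2, H2⟩ := h2
    refine ⟨B1 + B2, by positivity, fun J J' δ hJ hd hδ => ?_⟩
    have e : ∀ a b c d : ℝ, a + b - (c + d) = (a - c) + (b - d) := fun a b c d => by ring
    rw [e, add_mul]
    exact (abs_add_le _ _).trans (add_le_add (H1 J J' δ hJ hd hδ) (H2 J J' δ hJ hd hδ))
  | @mul q q' m f g hf hg h1 h2 =>
    obtain ⟨B1, hB1, H1⟩ := h1
    obtain ⟨B2, hB2, H2⟩ := h2
    obtain ⟨A1, hA1, K1⟩ := DP_bdd hf M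
    obtain ⟨A2, hA2, K2⟩ := DP_bdd hg M
    refine ⟨A1 * B2 + B1 * A2, by positivity, fun J J' δ hJ hd hδ => ?_⟩
    have e : f J * g J - f J' * g J' = f J * (g J - g J') + (f J - f J') * g J' := by ring
    rw [e]
    refine (abs_add_le _ _).trans ?_
    rw [abs_mul, abs_mul, add_mul]
    refine add_le_add ?_ ?_
    · rw [mul_assoc]
      exact mul_le_mul (K1 J fun w a b => (hJ w a b).1) (H2 J J' δ hJ hd hδ) (abs_nonneg _) hA1
    · calc |f J - f J'| * |g J'| ≤ (B1 * δ) * A2 :=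
            mul_le_mul (H1 J J' δ hJ hd hδ) (K2 J' fun w a b => (hJ w a b).2) (abs_nonneg _)
              (by positivity)
        _ = B1 * A2 * δ := by ring

lemma Nab_nonneg (a b : ℕ) (J : Jet n) : 0 ≤ Nab a b J :=
  Finset.sum_nonneg fun _ _ => Finset.sum_nonneg fun _ _ => abs_nonneg _

lemma le_Nab {a b : ℕ} (J : Jet n) {w : List (Fin n)} (h1 : a ≤ w.length) (h2 : w.length ≤ b) :
    |J w| ≤ Nab a b J := by
  unfold Nab
  have e : J w = J (List.ofFn (w.get)) := by rw [List.ofFn_get]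
  rw [e]
  refine le_trans ?_ (Finset.single_le_sum
    (f := fun k => ∑ v : Fin k → Fin n, |J (List.ofFn v)|)
    (fun k _ => Finset.sum_nonneg fun _ _ => abs_nonneg _)
    (Finset.mem_Icc.2 ⟨h1, h2⟩))
  exact Finset.single_le_sum (f := fun v : Fin w.length → Fin n => |J (List.ofFn v)|)
    (fun v _ => abs_nonneg _) (Finset.mem_univ _)

/-- low weight: bounded -/
lemma DP_low {q m : ℕ} {f : Jet n → ℝ} (hf : DP q m f) (l : ℕ) (hl : q ≤ l) (M : ℝ) :
    ∃ C : ℝ, 0 ≤ C ∧ ∀ J : Jet n,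
      (∀ w : List (Fin n), 1 ≤ w.length → w.length ≤ l + 1 → |J w| ≤ M) → |f J| ≤ C := by
  induction hf with
  | zero => exact ⟨0, le_rfl, fun J _ => by simp⟩
  | base φ hφ =>
    obtain ⟨C, hC0, hC⟩ := box_bdd hφ.continuous M
    exact ⟨C, hC0, fun J hJ => hC _ fun i => hJ [i] (by simp) (by simp)⟩
  | @var m k w hw h1 hm =>
    exact ⟨|M|, abs_nonneg _, fun J hJ => (hJ w (by omega) (by omega)).trans (le_abs_self _)⟩
  | add _ _ h1 h2 =>
    obtain ⟨B1, hB1, H1⟩ := h1 hl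
    obtain ⟨B2, hB2, H2⟩ := h2 hl
    exact ⟨B1 + B2, by positivity, fun J hJ => (abs_add_le _ _).trans (add_le_add (H1 J hJ) (H2 J hJ))⟩
  | mul _ _ h1 h2 =>
    obtain ⟨B1, hB1, H1⟩ := h1 (by omega)
    obtain ⟨B2, hB2, H2⟩ := h2 (by omega)
    refine ⟨B1 * B2, by positivity, fun J hJ => ?_⟩
    rw [abs_mul]
    exact mul_le_mul (H1 J hJ) (H2 J hJ) (abs_nonneg _) hB1

/-- If `q < 2(ℓ+1)` then at most one factor has weight `> ℓ`. -/
theorem DP_bound {q m : ℕ} {f : Jet n → ℝ} (hf : DP q m f) (l : ℕ) (hl : q < 2 * (l + 1))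
    (M : ℝ) : ∃ C : ℝ, 0 ≤ C ∧ ∀ J : Jet n,
      (∀ w : List (Fin n), 1 ≤ w.length → w.length ≤ l + 1 → |J w| ≤ M) →
      |f J| ≤ C * (1 + Nab (l + 2) (m + 1) J) := by
  induction hf with
  | zero => exact ⟨0, le_rfl, fun J _ => by simp⟩
  | @base m φ hφ =>
    obtain ⟨C, hC0, hC⟩ := box_bdd hφ.continuous M
    refine ⟨C, hC0, fun J hJ => (hC _ fun i => hJ [i] (by simp) (by simp)).trans ?_⟩
    apply le_mul_of_one_le_right hC0
    linarith [Nab_nonneg (l + 2) (m + 1) J]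
  | @var m k w hw h1 hm =>
    refine ⟨|M| + 1, by positivity, fun J hJ => ?_⟩
    have hN := Nab_nonneg (l + 2) (m + 1) J
    rcases Nat.lt_or_ge l k with hk | hk
    · have h2 := le_Nab (a := l + 2) (b := m + 1) J (w := w) (by omega) (by omega)
      have h3 : 0 ≤ |M| * (1 + Nab (l + 2) (m + 1) J) := by positivity
      linarith
    · have h2 := (hJ w (by omega) (by omega)).trans (le_abs_self M)
      have h3 : 0 ≤ |M| * Nab (l + 2) (m + 1) J := by positivity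
      linarith
  | add _ _ h1 h2 =>
    obtain ⟨B1, hB1, H1⟩ := h1 hl
    obtain ⟨B2, hB2, H2⟩ := h2 hl
    refine ⟨B1 + B2, by positivity, fun J hJ => ?_⟩
    rw [add_mul]
    exact (abs_add_le _ _).trans (add_le_add (H1 J hJ) (H2 J hJ))
  | @mul q q' m f g hf hg h1 h2 =>
    rcases Nat.lt_or_ge q (l + 1) with hq | hq
    · obtain ⟨B1, hB1, H1⟩ := DP_low hf l (by omega) M
      obtain ⟨B2, hB2, H2⟩ := h2 (by omega)
      refine ⟨B1 * B2, by positivity, fun J hJ => ?_⟩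
      rw [abs_mul, mul_assoc]
      exact mul_le_mul (H1 J hJ) (H2 J hJ) (abs_nonneg _) hB1
    · obtain ⟨B1, hB1, H1⟩ := h1 (by omega)
      obtain ⟨B2, hB2, H2⟩ := DP_low hg l (by omega) M
      refine ⟨B1 * B2, by positivity, fun J hJ => ?_⟩
      have hN := Nab_nonneg (l + 2) (m + 1) J
      rw [abs_mul]
      calc |f J| * |g J| ≤ (B1 * (1 + Nab (l + 2) (m + 1) J)) * B2 :=
            mul_le_mul (H1 J hJ) (H2 J hJ) (abs_nonneg _) (by positivity)
        _ = B1 * B2 * (1 + Nab (l + 2) (m + 1) J) := by ring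

/-- the bounding functions of weights `0, …, 4` -/
def wb : ℕ → ℝ → ℝ → ℝ
  | 0, _, _ => 1
  | 1, _, _ => 1
  | 2, a, _ => 1 + a
  | 3, a, b => 1 + a + b
  | _, a, b => 1 + a ^ 2 + b

lemma wb_mul {q q' : ℕ} (h : q + q' ≤ 4) {a b : ℝ} (ha : 0 ≤ a) (hb : 0 ≤ b) :
    wb q a b * wb q' a b ≤ 2 * wb (q + q') a b := by
  have h1 : q ≤ 4 := by omega
  have h2 : q' ≤ 4 := by omega
  have h3 := sq_nonneg (a - 1)
  have h4 := mul_nonneg ha hb
  interval_cases q <;> interval_cases q' <;> simp only [wb] at h ⊢ <;>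
    first
      | omega
      | nlinarith

lemma one_le_wb (q : ℕ) {a b : ℝ} (ha : 0 ≤ a) (hb : 0 ≤ b) : 1 ≤ wb q a b := by
  have := sq_nonneg a
  rcases q with _ | _ | _ | _ | q <;> simp only [wb] <;> linarith

lemma DP_wb {q m : ℕ} {f : Jet n → ℝ} (hf : DP q m f) (hm : m = 3) (hq : q ≤ 4) (M : ℝ) :
    ∃ C : ℝ, 0 ≤ C ∧ ∀ J : Jet n,
      (∀ w : List (Fin n), 1 ≤ w.length → w.length ≤ 2 → |J w| ≤ M) →
      |f J| ≤ C * wb q (Nab 3 3 J) (Nab 4 4 J) := by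
  induction hf with
  | zero => exact ⟨0, le_rfl, fun J _ => by simp⟩
  | base φ hφ =>
    obtain ⟨C, hC0, hC⟩ := box_bdd hφ.continuous M
    refine ⟨C, hC0, fun J hJ => (hC _ fun i => hJ [i] (by simp) (by simp)).trans ?_⟩
    exact le_mul_of_one_le_right hC0 (one_le_wb 0 (Nab_nonneg _ _ _) (Nab_nonneg _ _ _))
  | @var m k w hw h1 hk =>
    subst hm
    have hk3 : k = 1 ∨ k = 2 ∨ k = 3 := by omega
    refine ⟨|M| + 1, by positivity, fun J hJ => ?_⟩
    have ha := Nab_nonneg 3 3 J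
    have hb := Nab_nonneg 4 4 J
    rcases hk3 with rfl | rfl | rfl
    · have h2 := (hJ w (by omega) (by omega)).trans (le_abs_self M)
      simp only [wb]
      linarith
    · have h2 := le_Nab (a := 3) (b := 3) J (w := w) (by omega) (by omega)
      simp only [wb]
      have h3 : 0 ≤ |M| * (1 + Nab 3 3 J) := by positivity
      linarith
    · have h2 := le_Nab (a := 4) (b := 4) J (w := w) (by omega) (by omega)
      simp only [wb]
      have h3 : 0 ≤ |M| * (1 + Nab 3 3 J + Nab 4 4 J) := by positivity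
      linarith
  | add _ _ h1 h2 =>
    obtain ⟨B1, hB1, H1⟩ := h1 hm hq
    obtain ⟨B2, hB2, H2⟩ := h2 hm hq
    refine ⟨B1 + B2, by positivity, fun J hJ => ?_⟩
    rw [add_mul]
    exact (abs_add_le _ _).trans (add_le_add (H1 J hJ) (H2 J hJ))
  | @mul q q' m f g hf hg h1 h2 =>
    obtain ⟨B1, hB1, H1⟩ := h1 hm (by omega)
    obtain ⟨B2, hB2, H2⟩ := h2 hm (by omega)
    refine ⟨B1 * B2 * 2, by positivity, fun J hJ => ?_⟩
    have ha := Nab_nonneg 3 3 J
    have hb := Nab_nonneg 4 4 J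
    have w1 := one_le_wb q ha hb
    have w2 := one_le_wb q' ha hb
    rw [abs_mul]
    calc |f J| * |g J| ≤ (B1 * wb q (Nab 3 3 J) (Nab 4 4 J)) * (B2 * wb q' (Nab 3 3 J) (Nab 4 4 J)) :=
          mul_le_mul (H1 J hJ) (H2 J hJ) (abs_nonneg _) (by positivity)
      _ = B1 * B2 * (wb q (Nab 3 3 J) (Nab 4 4 J) * wb q' (Nab 3 3 J) (Nab 4 4 J)) := by ring
      _ ≤ B1 * B2 * (2 * wb (q + q') (Nab 3 3 J) (Nab 4 4 J)) :=
          mul_le_mul_of_nonneg_left (wb_mul hq ha hb) (by positivity)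
      _ = _ := by ring

theorem DP_bound4 {f : Jet n → ℝ} (hf : DP 4 3 f) (M : ℝ) : ∃ C : ℝ, 0 ≤ C ∧ ∀ J : Jet n,
      (∀ w : List (Fin n), 1 ≤ w.length → w.length ≤ 2 → |J w| ≤ M) →
      |f J| ≤ C * (1 + (Nab 3 3 J) ^ 2 + Nab 4 4 J) :=
  DP_wb hf rfl le_rfl M

end Pool.Agent.GR
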