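import Pool.Agent.Helper35.GR.Defs2
import Pool.Agent.Helper16.GR.Moll
import Pool.Agent.Helper41.GR.DPBounds
import Pool.Agent.Helper40.GR.Ode

/-!
# The regularised flow as an ODE (P5a)
-/

set_option autoImplicit false

open scoped ContDiff Topology NNReal BoundedContinuousFunction
open Set Filter MeasureTheory

namespace Pool.Agent.GR

open Pool.Agent.Helper25.GrimReaper

variable {n : ℕ}

/-! ### `F` as a differential polynomial -/

/-- the differential polynomial of `F` -/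
noncomputable def G0 (J : Jet n) : ℝ :=
  (∑ i, J [i, i]) - (1 + ∑ i, (J [i]) ^ 2)⁻¹ * ∑ i, ∑ j, J [i] * J [j] * J [i, j]

lemma Fop_eq_G0 (u : E n → ℝ) (x : E n) : Fop u x = G0 (jet u x) := rfl

lemma DP_finset_sum {ι : Type*} {q m : ℕ} (s : Finset ι) (f : ι → Jet n → ℝ)
    (hf : ∀ a ∈ s, DP q m (f a)) : DP q m (fun J => ∑ a ∈ s, f a J) := by
  classical
  induction s using Finset.induction_on with
  | empty => simpa using DP.zero
  | insert a s ha ih =>
    have h1 : DP q m (fun J => f a J + ∑ a ∈ s, f a J) :=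
      DP.add (hf a (Finset.mem_insert_self _ _)) (ih fun b hb => hf b (Finset.mem_insert_of_mem hb))
    refine (congrArg (DP q m) (funext fun J => ?_)).mpr h1
    rw [Finset.sum_insert ha]

lemma DP_G0 : DP 1 1 (G0 (n := n)) := by
  have h2 : ∀ i j : Fin n, DP 1 1 (fun J : Jet n => J [i, j]) := fun i j =>
    DP.var (k := 1) [i, j] (by simp) le_rfl le_rfl
  have h1 : ∀ i j : Fin n, DP 1 1 (fun J : Jet n =>
      (-((1 + ∑ k, (J [k]) ^ 2)⁻¹ * (J [i] * J [j]))) * J [i, j]) := by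
    intro i j
    have h3 : ContDiff ℝ ∞ (fun p : Fin n → ℝ => -((1 + ∑ k, (p k) ^ 2)⁻¹ * (p i * p j))) := by
      refine ContDiff.neg (ContDiff.mul (ContDiff.inv (by fun_prop) fun p => ?_) (by fun_prop))
      have : 0 ≤ ∑ k, (p k) ^ 2 := Finset.sum_nonneg fun _ _ => sq_nonneg _
      positivity
    have h4 := DP.mul (DP.base (n := n) (m := 1) _ h3) (h2 i j)
    simpa using h4
  have h5 : DP 1 1 (fun J : Jet n => (∑ i, J [i, i])
      + ∑ i, ∑ j, (-((1 + ∑ k, (J [k]) ^ 2)⁻¹ * (J [i] * J [j]))) * J [i, j]) :=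
    DP.add (DP_finset_sum _ _ fun i _ => h2 i i)
      (DP_finset_sum _ _ fun i _ => DP_finset_sum _ _ fun j _ => h1 i j)
  refine (congrArg (DP 1 1) (funext fun J => ?_)).mpr h5
  unfold G0
  rw [sub_eq_add_neg, Finset.mul_sum, ← Finset.sum_neg_distrib]
  congr 1
  refine Finset.sum_congr rfl fun i _ => ?_
  rw [Finset.mul_sum, ← Finset.sum_neg_distrib]
  refine Finset.sum_congr rfl fun j _ => ?_
  ring

lemma jet_continuous {u : E n → ℝ} (hu : ContDiff ℝ ∞ u) : Continuous (jet u) :=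
  continuous_pi fun w => (contDiff_Dw hu w).continuous

lemma Fop_continuous {u : E n → ℝ} (hu : ContDiff ℝ ∞ u) : Continuous (Fop u) :=
  (DP_continuous DP_G0).comp (jet_continuous hu)

/-- linear growth of `F` -/
lemma Fop_abs_le (f : E n → ℝ) (x : E n) :
    |Fop f x| ≤ (∑ i, |pd i (pd i f) x|) + ∑ i, ∑ j, |pd i (pd j f) x| := by
  unfold Fop
  refine (abs_sub _ _).trans (add_le_add (Finset.abs_sum_le_sum_abs _ _) ?_)
  have hS := gradSq_nonneg f x
  rw [Finset.mul_sum]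
  refine (Finset.abs_sum_le_sum_abs _ _).trans (Finset.sum_le_sum fun i _ => ?_)
  rw [Finset.mul_sum]
  refine (Finset.abs_sum_le_sum_abs _ _).trans (Finset.sum_le_sum fun j _ => ?_)
  rw [← mul_assoc, abs_mul]
  apply mul_le_of_le_one_left (abs_nonneg _)
  rw [abs_mul, abs_of_pos (by positivity : (0 : ℝ) < (1 + gradSq f x)⁻¹), inv_mul_le_iff₀ (by positivity),
    mul_one]
  have h1 : ∀ k, (pd k f x) ^ 2 ≤ gradSq f x := fun k =>
    Finset.single_le_sum (f := fun k => (pd k f x) ^ 2) (fun _ _ => sq_nonneg _) (Finset.mem_univ k)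
  have h2 := h1 i
  have h3 := h1 j
  rw [abs_le]
  constructor
  · nlinarith [sq_nonneg (pd i f x + pd j f x)]
  · nlinarith [sq_nonneg (pd i f x - pd j f x)]

/-! ### the bounded operators `g ↦ D_w (J g)` -/

/-- `g ↦ D_w (J g)` -/
noncomputable def Aw {ε : ℝ} (m : Mollifier n ε) (w : List (Fin n)) :
    (E n →ᵇ ℝ) →L[ℝ] (E n →ᵇ ℝ) :=
  have hb : ∀ (g : E n →ᵇ ℝ) (x : E n), ‖Dw w (m.J g) x‖ ≤ |(J_Dw_bound m w).choose| * ‖g‖ := by
    intro g x
    refine ((J_Dw_bound m w).choose_spec g g.continuous ‖g‖ (fun y => g.norm_coe_le_norm y) x).trans ?_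
    exact mul_le_mul_of_nonneg_right (le_abs_self _) (norm_nonneg _)
  LinearMap.mkContinuous
    { toFun := fun g => BoundedContinuousFunction.ofNormedAddCommGroup (Dw w (m.J g))
        (contDiff_Dw (J_contDiff m g.continuous) w).continuous _ (hb g)
      map_add' := by
        intro g g'
        ext x
        have h1 : m.J (g + g' : E n →ᵇ ℝ) = fun x => m.J g x + m.J g' x := by
          rw [← J_add m g.continuous g'.continuous]
          rfl
        change Dw w (m.J (g + g' : E n →ᵇ ℝ)) x = Dw w (m.J g) x + Dw w (m.J g') x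
        rw [h1, Dw_add (J_contDiff m g.continuous) (J_contDiff m g'.continuous)]
      map_smul' := by
        intro c g
        ext x
        have h1 : m.J (c • g : E n →ᵇ ℝ) = fun x => c * m.J g x := by
          rw [← J_const_mul m c g]
          rfl
        change Dw w (m.J (c • g : E n →ᵇ ℝ)) x = c * Dw w (m.J g) x
        rw [h1, Dw_const_mul (J_contDiff m g.continuous)] }
    |(J_Dw_bound m w).choose| (by
      intro g
      rw [BoundedContinuousFunction.norm_le (by positivity)]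
      exact hb g)

lemma Aw_apply {ε : ℝ} (m : Mollifier n ε) (w : List (Fin n)) (g : E n →ᵇ ℝ) (x : E n) :
    Aw m w g x = Dw w (m.J g) x := rfl

lemma Dw_J_le {ε : ℝ} (m : Mollifier n ε) (w : List (Fin n)) (g : E n →ᵇ ℝ) (x : E n) :
    |Dw w (m.J g) x| ≤ ‖Aw m w‖ * ‖g‖ := by
  rw [← Aw_apply, ← Real.norm_eq_abs]
  exact ((Aw m w g).norm_coe_le_norm x).trans ((Aw m w).le_opNorm g)

/-- a common bound of the operators of order one and two -/
noncomputable def c12 {ε : ℝ} (m : Mollifier n ε) : ℝ := Nab 1 2 (fun w => ‖Aw m w‖)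

lemma c12_nonneg {ε : ℝ} (m : Mollifier n ε) : 0 ≤ c12 m := Nab_nonneg _ _ _

lemma Aw_le_c12 {ε : ℝ} (m : Mollifier n ε) {w : List (Fin n)} (h1 : 1 ≤ w.length)
    (h2 : w.length ≤ 2) : ‖Aw m w‖ ≤ c12 m := by
  exact (le_abs_self _).trans (le_Nab (fun w => ‖Aw m w‖) h1 h2)

lemma Dw_J_le12 {ε : ℝ} (m : Mollifier n ε) {w : List (Fin n)} (h1 : 1 ≤ w.length)
    (h2 : w.length ≤ 2) (g : E n →ᵇ ℝ) (x : E n) : |Dw w (m.J g) x| ≤ c12 m * ‖g‖ :=
  (Dw_J_le m w g x).trans (mul_le_mul_of_nonneg_right (Aw_le_c12 m h1 h2) (norm_nonneg _))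

lemma Fop_J_le {ε : ℝ} (m : Mollifier n ε) (g : E n →ᵇ ℝ) (x : E n) :
    ‖Fop (m.J g) x‖ ≤ ((n : ℝ) + n * n) * c12 m * ‖g‖ := by
  have h2 : ∀ i j : Fin n, |pd i (pd j (m.J g)) x| ≤ c12 m * ‖g‖ := fun i j =>
    Dw_J_le12 m (w := [i, j]) (by simp) (by simp) g x
  refine (Fop_abs_le _ x).trans ?_
  have h3 : (∑ i, |pd i (pd i (m.J g)) x|) ≤ ∑ _i : Fin n, c12 m * ‖g‖ :=
    Finset.sum_le_sum fun i _ => h2 i i
  have h4 : (∑ i, ∑ j, |pd i (pd j (m.J g)) x|) ≤ ∑ _i : Fin n, ∑ _j : Fin n, c12 m * ‖g‖ :=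
    Finset.sum_le_sum fun i _ => Finset.sum_le_sum fun j _ => h2 i j
  simp only [Finset.sum_const, Finset.card_univ, Fintype.card_fin, nsmul_eq_mul] at h3 h4
  calc _ ≤ (n : ℝ) * (c12 m * ‖g‖) + n * (n * (c12 m * ‖g‖)) := add_le_add h3 h4
    _ = _ := by ring

/-- `g ↦ F(J g)` -/
noncomputable def Fn {ε : ℝ} (m : Mollifier n ε) (g : E n →ᵇ ℝ) : E n →ᵇ ℝ :=
  BoundedContinuousFunction.ofNormedAddCommGroup (Fop (m.J g))
    (Fop_continuous (J_contDiff m g.continuous)) _ (Fop_J_le m g)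

lemma Fn_apply {ε : ℝ} (m : Mollifier n ε) (g : E n →ᵇ ℝ) (x : E n) :
    Fn m g x = Fop (m.J g) x := rfl

lemma Fn_norm_le {ε : ℝ} (m : Mollifier n ε) (g : E n →ᵇ ℝ) :
    ‖Fn m g‖ ≤ ((n : ℝ) + n * n) * c12 m * ‖g‖ := by
  have := c12_nonneg m
  rw [BoundedContinuousFunction.norm_le (by positivity)]
  exact Fop_J_le m g

lemma Fn_lip {ε : ℝ} (m : Mollifier n ε) (R : ℝ) : ∃ K : ℝ, 0 ≤ K ∧ ∀ g g' : E n →ᵇ ℝ,
    ‖g‖ ≤ R → ‖g'‖ ≤ R → ‖Fn m g - Fn m g'‖ ≤ K * ‖g - g'‖ := by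
  have hc := c12_nonneg m
  obtain ⟨C, hC0, hC⟩ := DP_lipschitz (n := n) DP_G0 (c12 m * R)
  refine ⟨C * c12 m, by positivity, fun g g' hg hg' => ?_⟩
  rw [BoundedContinuousFunction.norm_le (by positivity)]
  intro x
  have h1 := hC (jet (m.J g) x) (jet (m.J g') x) (c12 m * ‖g - g'‖)
    (fun w a b => ⟨(Dw_J_le12 m a b g x).trans (mul_le_mul_of_nonneg_left hg hc),
      (Dw_J_le12 m a b g' x).trans (mul_le_mul_of_nonneg_left hg' hc)⟩)
    (fun w a b => by
      have h2 : jet (m.J g) x w - jet (m.J g') x w = Aw m w (g - g') x := by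
        rw [map_sub, BoundedContinuousFunction.sub_apply]
        rfl
      rw [h2, Aw_apply]
      exact Dw_J_le12 m a b (g - g') x) (by positivity)
  rw [BoundedContinuousFunction.sub_apply, Fn_apply, Fn_apply, Fop_eq_G0, Fop_eq_G0,
    Real.norm_eq_abs, mul_assoc]
  exact h1

lemma Fn_continuous {ε : ℝ} (m : Mollifier n ε) : Continuous (Fn m) := by
  rw [continuous_iff_continuousAt]
  intro g
  obtain ⟨K, hK0, hK⟩ := Fn_lip m (‖g‖ + 1)
  rw [Metric.continuousAt_iff]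
  intro δ hδ
  refine ⟨min 1 (δ / (K + 1)), by positivity, fun g' hg' => ?_⟩
  rw [dist_eq_norm] at hg' ⊢
  have h1 : ‖g' - g‖ < 1 := hg'.trans_le (min_le_left _ _)
  have h2 : ‖g' - g‖ < δ / (K + 1) := hg'.trans_le (min_le_right _ _)
  have h3 : ‖g'‖ ≤ ‖g‖ + 1 := by
    have := norm_sub_norm_le g' g
    linarith
  refine (hK g' g h3 (by linarith)).trans_lt ?_
  rw [lt_div_iff₀ (by positivity)] at h2
  have := norm_nonneg (g' - g)
  nlinarith

/-! ### periodic functions -/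

/-- the closed subspace of periodic functions -/
def perSub (n : ℕ) (P : ℝ) : Submodule ℝ (E n →ᵇ ℝ) where
  carrier := {g | Per P g}
  add_mem' := by
    intro a b ha hb i x
    rw [BoundedContinuousFunction.add_apply, BoundedContinuousFunction.add_apply, ha i x, hb i x]
  zero_mem' := fun _ _ => rfl
  smul_mem' := by
    intro c a ha i x
    rw [BoundedContinuousFunction.smul_apply, BoundedContinuousFunction.smul_apply, ha i x]

lemma perSub_closed (P : ℝ) : IsClosed (perSub n P : Set (E n →ᵇ ℝ)) := by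
  have h1 : (perSub n P : Set (E n →ᵇ ℝ)) =
      ⋂ (i : Fin n) (x : E n), {g : E n →ᵇ ℝ | g (x + P • ee i) = g x} := by
    ext g
    simp only [mem_iInter, mem_setOf_eq]
    rfl
  rw [h1]
  exact isClosed_iInter fun i => isClosed_iInter fun x =>
    isClosed_eq (continuous_eval_const (F := E n →ᵇ ℝ) (x + P • ee i))
      (continuous_eval_const (F := E n →ᵇ ℝ) x)

lemma Per.add_int {P : ℝ} {f : E n → ℝ} (h : Per P f) (i : Fin n) (k : ℤ) (x : E n) :
    f (x + ((k : ℝ) * P) • ee i) = f x := by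
  have hn : ∀ (j : ℕ) (x : E n), f (x + ((j : ℝ) * P) • ee i) = f x := by
    intro j
    induction j with
    | zero => intro x; simp
    | succ j ih =>
      intro x
      have e : x + (((j + 1 : ℕ) : ℝ) * P) • ee i = (x + ((j : ℝ) * P) • ee i) + P • ee i := by
        push_cast
        rw [add_mul, one_mul, add_smul, add_assoc]
      rw [e, h i, ih]
  rcases Int.eq_nat_or_neg k with ⟨j, rfl | rfl⟩
  · exact_mod_cast hn j x
  · have h1 := hn j (x + (((-(j : ℤ) : ℤ) : ℝ) * P) • ee i)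
    rw [← h1]
    congr 1
    push_cast
    rw [neg_mul, neg_smul, neg_add_cancel_right]

lemma Per.add_sum {P : ℝ} {f : E n → ℝ} (h : Per P f) (k : Fin n → ℤ) (s : Finset (Fin n))
    (x : E n) : f (x + ∑ i ∈ s, ((k i : ℝ) * P) • ee i) = f x := by
  classical
  induction s using Finset.induction_on generalizing x with
  | empty => simp
  | insert a s ha ih =>
    rw [Finset.sum_insert ha, ← add_assoc, ih, h.add_int]

lemma Per.bounded {P : ℝ} (hP : 0 < P) {f : E n → ℝ} (h : Per P f) (hf : Continuous f) :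
    ∃ B : ℝ, ∀ x, |f x| ≤ B := by
  have hK : IsCompact (Metric.closedBall (0 : E n) (P * Real.sqrt n)) := isCompact_closedBall _ _
  obtain ⟨B, hB⟩ := hK.exists_bound_of_continuousOn hf.continuousOn
  refine ⟨B, fun x => ?_⟩
  have h1 := h.add_sum (fun i => -⌊x i / P⌋) Finset.univ x
  rw [← h1, ← Real.norm_eq_abs]
  apply hB
  rw [Metric.mem_closedBall, dist_zero_right, EuclideanSpace.norm_eq]
  have h2 : ∀ i, (x + ∑ j, (((-⌊x j / P⌋ : ℤ) : ℝ) * P) • ee j) i = x i - ⌊x i / P⌋ * P := by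
    intro i
    rw [PiLp.add_apply, WithLp.ofLp_sum, Finset.sum_apply]
    simp [ee]
    ring
  have h3 : ∀ i, ‖(x + ∑ j, (((-⌊x j / P⌋ : ℤ) : ℝ) * P) • ee j) i‖ ^ 2 ≤ P ^ 2 := by
    intro i
    rw [h2, Real.norm_eq_abs, sq_abs]
    have h4 := Int.floor_le (x i / P)
    have h5 := Int.lt_floor_add_one (x i / P)
    rw [le_div_iff₀ hP] at h4
    rw [div_lt_iff₀ hP] at h5
    have h6 : 0 ≤ x i - ⌊x i / P⌋ * P := by linarith
    have h7 : x i - ⌊x i / P⌋ * P ≤ P := by linarith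
    exact pow_le_pow_left₀ h6 h7 2
  calc √(∑ i, ‖(x + ∑ j, (((-⌊x j / P⌋ : ℤ) : ℝ) * P) • ee j) i‖ ^ 2) ≤ √(∑ _i : Fin n, P ^ 2) :=
        Real.sqrt_le_sqrt (Finset.sum_le_sum fun i _ => h3 i)
    _ = √((P ^ 2) * n) := by
        rw [Finset.sum_const, Finset.card_univ, Fintype.card_fin, nsmul_eq_mul, mul_comm]
    _ = P * √n := by rw [Real.sqrt_mul (sq_nonneg P), Real.sqrt_sq hP.le]

/-! ### the flow -/

theorem exists_approx {ε : ℝ} (m : Mollifier n ε) {P : ℝ} (hP : 0 < P) {f : E n → ℝ}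
    (hf : ContDiff ℝ ∞ f) (hfp : Per P f) {T : ℝ} (hT : 0 ≤ T) :
    ∃ U : ℝ → E n → ℝ, IsApprox m P T f U := by
  have : CompleteSpace (perSub n P) := (perSub_closed P).completeSpace_coe
  obtain ⟨B, hB⟩ := hfp.bounded hP hf.continuous
  let f0 : E n →ᵇ ℝ := BoundedContinuousFunction.ofNormedAddCommGroup f hf.continuous B hB
  let V : perSub n P → perSub n P := fun g => ⟨Aw m [] (Fn m g), J_per m (Per.Fop (J_per m g.2))⟩
  have hc := c12_nonneg m
  obtain ⟨U, hU0, hU⟩ := ode_global V (‖Aw m []‖ * (((n : ℝ) + n * n) * c12 m)) (by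
      intro g
      calc ‖V g‖ = ‖Aw m [] (Fn m g)‖ := rfl
        _ ≤ ‖Aw m []‖ * ‖Fn m g‖ := (Aw m []).le_opNorm _
        _ ≤ ‖Aw m []‖ * (((n : ℝ) + n * n) * c12 m * ‖(g : E n →ᵇ ℝ)‖) :=
            mul_le_mul_of_nonneg_left (Fn_norm_le m g) (norm_nonneg (Aw m []))
        _ ≤ ‖Aw m []‖ * (((n : ℝ) + n * n) * c12 m * (1 + ‖g‖)) := by
            have : ‖(g : E n →ᵇ ℝ)‖ ≤ 1 + ‖g‖ := by
              rw [Submodule.norm_coe]
              linarith
            gcongr
        _ = _ := by ring) (by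
      intro R
      obtain ⟨K, hK0, hK⟩ := Fn_lip m R
      refine ⟨⟨‖Aw m []‖ * K, by positivity⟩, LipschitzOnWith.of_dist_le_mul fun g hg g' hg' => ?_⟩
      have hg1 : ‖(g : E n →ᵇ ℝ)‖ ≤ R := by
        have h1 : dist (g : E n →ᵇ ℝ) 0 ≤ R := hg
        rwa [dist_zero_right] at h1
      have hg2 : ‖(g' : E n →ᵇ ℝ)‖ ≤ R := by
        have h1 : dist (g' : E n →ᵇ ℝ) 0 ≤ R := hg'
        rwa [dist_zero_right] at h1
      rw [dist_eq_norm, dist_eq_norm]
      calc ‖V g - V g'‖ = ‖Aw m [] (Fn m g) - Aw m [] (Fn m g')‖ := rfl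
        _ = ‖Aw m [] (Fn m g - Fn m g')‖ := by rw [map_sub]
        _ ≤ ‖Aw m []‖ * ‖Fn m g - Fn m g'‖ := (Aw m []).le_opNorm _
        _ ≤ ‖Aw m []‖ * (K * ‖(g : E n →ᵇ ℝ) - g'‖) :=
            mul_le_mul_of_nonneg_left (hK g g' hg1 hg2) (norm_nonneg (Aw m []))
        _ = ‖Aw m []‖ * K * ‖g - g'‖ := by
            rw [← mul_assoc]
            rfl) ⟨f0, hfp⟩ hT
  have hUc : ContinuousOn U (Icc 0 T) := fun t ht => (hU t ht).continuousWithinAt
  -- the forcing, extended to all times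
  have hproj : Continuous fun s => U (projIcc 0 T hT s) := by
    rw [continuousOn_iff_continuous_restrict] at hUc
    exact hUc.comp continuous_projIcc
  set h : ℝ → (E n →ᵇ ℝ) := fun s => Fn m (U (projIcc 0 T hT s)) with hh
  have hhc : Continuous h := (Fn_continuous m).comp (continuous_subtype_val.comp hproj)
  have hht : ∀ t ∈ Icc 0 T, h t = Fn m (U t) := by
    intro t ht
    simp only [hh]
    rw [projIcc_of_mem hT ht]
  set H : ℝ → (E n →ᵇ ℝ) := fun t => ∫ s in (0 : ℝ)..t, h s with hH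
  have hHd : ∀ t, HasDerivAt H (h t) t := fun t => (hhc.integral_hasStrictDerivAt 0 t).hasDerivAt
  have hHc : Continuous H := continuous_iff_continuousAt.2 fun t => (hHd t).continuousAt
  have hH0 : H 0 = 0 := by simp [hH]
  have hAd : ∀ (w : List (Fin n)) (t : ℝ), HasDerivAt (fun s => Aw m w (H s)) (Aw m w (h t)) t :=
    fun w t => (Aw m w).hasFDerivAt.comp_hasDerivAt t (hHd t)
  -- the integral formula
  have hform : ∀ t ∈ Icc 0 T, (U t : E n →ᵇ ℝ) = f0 + Aw m [] (H t) := by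
    have hD : ∀ t ∈ Icc 0 T, HasDerivWithinAt (fun s => (U s : E n →ᵇ ℝ) - Aw m [] (H s)) 0
        (Icc 0 T) t := by
      intro t ht
      have h1 : HasDerivWithinAt (fun s => (U s : E n →ᵇ ℝ)) (Aw m [] (h t)) (Icc 0 T) t := by
        have h2 := (perSub n P).subtypeL.hasFDerivAt.comp_hasDerivWithinAt t (hU t ht)
        rw [hht t ht]
        exact h2
      have h3 := h1.sub (hAd [] t).hasDerivWithinAt
      rwa [sub_self] at h3
    have hc := constant_of_has_deriv_right_zero (fun t ht => (hD t ht).continuousWithinAt)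
      (fun t ht => (hD t (Ico_subset_Icc_self ht)).mono_of_mem_nhdsWithin
        (Icc_mem_nhdsGE_of_mem ht))
    intro t ht
    have h1 := hc t ht
    simp only [hH0, map_zero, sub_zero, hU0] at h1
    rw [← h1]
    abel
  -- the solution
  have hsm : ∀ t, ContDiff ℝ ∞ (m.J (H t)) := fun t => J_contDiff m (H t).continuous
  have hUt : ∀ t ∈ Icc 0 T, (fun x => f x + m.J (H t) x) = ((U t : E n →ᵇ ℝ) : E n → ℝ) := by
    intro t ht
    rw [hform t ht]
    rfl
  have hDw : ∀ (w : List (Fin n)) (t : ℝ), Dw w (fun x => f x + m.J (H t) x)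
      = fun x => Dw w f x + Aw m w (H t) x := by
    intro w t
    rw [Dw_add hf (hsm t)]
    rfl
  have hFt : ∀ (w : List (Fin n)), ∀ t ∈ Icc 0 T,
      Dw w (m.J (Fop (m.J (fun x => f x + m.J (H t) x)))) = fun x => Aw m w (h t) x := by
    intro w t ht
    rw [hUt t ht, hht t ht]
    rfl
  have hjoint : ∀ (A : ℝ → (E n →ᵇ ℝ)), Continuous A → Continuous (fun p : ℝ × E n => A p.1 p.2) := by
    intro A hA
    exact (hA.comp continuous_fst).eval continuous_snd
  refine ⟨fun t x => f x + m.J (H t) x, ?_, ?_, ?_, ?_, ?_, ?_⟩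
  · funext x
    have : m.J (H 0) x = 0 := by
      have h1 : Aw m [] (H 0) x = 0 := by rw [hH0, map_zero]; rfl
      exact h1
    simp only [this, add_zero]
  · exact fun t _ => hf.add (hsm t)
  · intro t ht
    rw [hUt t ht]
    exact (U t).2
  · intro w
    simp only [hDw]
    have h1 : Continuous (Dw w f) := (contDiff_Dw hf w).continuous
    exact ((h1.comp continuous_snd).add (hjoint _ ((Aw m w).continuous.comp hHc))).continuousOn
  · intro w
    have h1 : ContinuousOn (fun p : ℝ × E n => Aw m w (h p.1) p.2) (Icc 0 T ×ˢ univ) :=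
      (hjoint _ ((Aw m w).continuous.comp hhc)).continuousOn
    refine h1.congr fun p hp => ?_
    simp only
    rw [hFt w p.1 hp.1]
  · intro w t ht x
    rw [hFt w t ht]
    simp only [hDw]
    have h0 := ((BoundedContinuousFunction.evalCLM ℝ x :
      (E n →ᵇ ℝ) →L[ℝ] ℝ)).hasFDerivAt.comp_hasDerivAt t (hAd w t)
    have h1 : HasDerivAt (fun s => Aw m w (H s) x) (Aw m w (h t) x) t := h0
    exact (h1.const_add _).hasDerivWithinAt

end Pool.Agent.GR
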